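import Pool.Agent.Lib.MP_18f39a_lc.Sigma

set_option autoImplicit false

namespace Pool.Agent.Results.MP_18f39a_lc.FSigma

open Pool.Agent.Lib.MP_18f39a_lc in
/-- Q1 holds when every `E n` is a relatively `F_σ` subset of Turing equivalence. -/
theorem result :
    ∀ E : ℕ → (ℕ → Bool) → (ℕ → Bool) → Prop,
      (∀ n, Equivalence (E n)) →
      (∀ n, ∃ F : ℕ → Set ((ℕ → Bool) × (ℕ → Bool)), (∀ k, IsClosed (F k)) ∧
        ∀ x y : ℕ → Bool, TuringEquivalent (fun k => Part.some (x k).toNat : ℕ →. ℕ)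
          (fun k => Part.some (y k).toNat : ℕ →. ℕ) → (E n x y ↔ ∃ k, (x, y) ∈ F k)) →
      (∀ x y : ℕ → Bool,
        TuringEquivalent (fun k => Part.some (x k).toNat : ℕ →. ℕ)
          (fun k => Part.some (y k).toNat : ℕ →. ℕ) ↔ ∃ n, E n x y) →
      ∃ t : List Bool → Bool, ∃ i : ℕ,
        t [] = true ∧
        (∀ l : List Bool, ∀ a : Bool, t (l ++ [a]) = true → t l = true) ∧
        (∀ l : List Bool, t l = true →
          ∃ m : List Bool, t (l ++ m ++ [false]) = true ∧ t (l ++ m ++ [true]) = true) ∧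
        (∀ x : ℕ → Bool, (∀ n, t (List.ofFn (fun j : Fin n => x j)) = true) →
          TuringReducible
            (fun k => Part.some (((Encodable.decode k : Option (List Bool)).elim false t).toNat)
              : ℕ →. ℕ)
            (fun k => Part.some (x k).toNat : ℕ →. ℕ)) ∧
        (∀ x y : ℕ → Bool,
          (∀ n, t (List.ofFn (fun j : Fin n => x j)) = true) →
          (∀ n, t (List.ofFn (fun j : Fin n => y j)) = true) →
          (E i x y ↔ TuringEquivalent (fun k => Part.some (x k).toNat : ℕ →. ℕ)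
            (fun k => Part.some (y k).toNat : ℕ →. ℕ))) := by
  intro E h1 h2 h4
  obtain ⟨t, i, ⟨a1, a2, a3, a4⟩, a5⟩ := main_sigma (E := E) h1 h4 h2
  exact ⟨t, i, a1, a2, a3, a4, a5⟩

end Pool.Agent.Results.MP_18f39a_lc.FSigma
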