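import Pool.Agent.Lib.MP_18f39a_lc.Branch

set_option autoImplicit false

namespace Pool.Agent.Results.MP_18f39a_lc.FiniteChange

open Pool.Agent.Lib.MP_18f39a_lc in
/-- Let each `E n` be the trace on Turing equivalence of the kernel of a Borel map `j n`. Then the
conclusion of Q1 holds for `E` if and only if there is a Borel map `f` such that every `x` of a
cone has `x ≤_T f x` and an `N` for which `j N ∘ f` is constant on the finite changes of `x`. -/
theorem result :
    ∀ (E : ℕ → (ℕ → Bool) → (ℕ → Bool) → Prop) (j : ℕ → (ℕ → Bool) → (ℕ → Bool)),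
      (∀ n, Measurable (j n)) →
      (∀ n x y, E n x y ↔ TuringEquivalent (fun k => Part.some (x k).toNat : ℕ →. ℕ)
          (fun k => Part.some (y k).toNat : ℕ →. ℕ) ∧ j n x = j n y) →
      ((∃ t : List Bool → Bool, ∃ i : ℕ,
        t [] = true ∧
        (∀ l : List Bool, ∀ a : Bool, t (l ++ [a]) = true → t l = true) ∧
        (∀ l : List Bool, t l = true →
          ∃ m : List Bool, t (l ++ m ++ [false]) = true ∧ t (l ++ m ++ [true]) = true) ∧
        (∀ x : ℕ → Bool, (∀ n, t (List.ofFn (fun j : Fin n => x j)) = true) →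
          TuringReducible
            (fun k => Part.some (((Encodable.decode k : Option (List Bool)).elim false t).toNat)
              : ℕ →. ℕ)
            (fun k => Part.some (x k).toNat : ℕ →. ℕ)) ∧
        (∀ x y : ℕ → Bool,
          (∀ n, t (List.ofFn (fun j : Fin n => x j)) = true) →
          (∀ n, t (List.ofFn (fun j : Fin n => y j)) = true) →
          (E i x y ↔ TuringEquivalent (fun k => Part.some (x k).toNat : ℕ →. ℕ)
            (fun k => Part.some (y k).toNat : ℕ →. ℕ)))) ↔
      ∃ (f : (ℕ → Bool) → (ℕ → Bool)) (b : ℕ → Bool), Measurable f ∧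
        ∀ x : ℕ → Bool,
          TuringReducible (fun k => Part.some (b k).toNat : ℕ →. ℕ)
            (fun k => Part.some (x k).toNat : ℕ →. ℕ) →
          TuringReducible (fun k => Part.some (x k).toNat : ℕ →. ℕ)
            (fun k => Part.some (f x k).toNat : ℕ →. ℕ) ∧
          ∃ N : ℕ, ∀ y : ℕ → Bool,
            (∀ᶠ n in Filter.atTop, x n = y n) → j N (f x) = j N (f y)) := by
  intro E j hj hE
  refine Iff.trans ?_ (concl_iff_finite_change (E := E) hj hE)
  exact ⟨fun ⟨t, i, a1, a2, a3, a4, a5⟩ => ⟨t, i, ⟨a1, a2, a3, a4⟩, a5⟩,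
    fun ⟨t, i, ⟨a1, a2, a3, a4⟩, a5⟩ => ⟨t, i, a1, a2, a3, a4, a5⟩⟩

end Pool.Agent.Results.MP_18f39a_lc.FiniteChange
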