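import Pool.Agent.Lib.MP_18f39a_lc.Ls.Fin

set_option autoImplicit false

namespace Pool.Agent.Results.MP_18f39a_lc.LargeClasses

open Pool.Agent.Lib.MP_18f39a_lc in
/-- For every increasing sequence `E` of Borel equivalence relations with union Turing equivalence
there is an `i` such that, whenever `E i` is the increasing union of Borel equivalence relations
`F m` (for instance `F m = E i`), there are a pointed perfect tree and an `m` such that for no
branch `x` the `F m`-class of `x` lies in the set of columns of a real computable from `x`. -/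
theorem result :
    ∀ E : ℕ → (ℕ → Bool) → (ℕ → Bool) → Prop,
      (∀ n, Equivalence (E n)) →
      (∀ n, MeasurableSet {p : (ℕ → Bool) × (ℕ → Bool) | E n p.1 p.2}) →
      (∀ n x y, E n x y → E (n + 1) x y) →
      (∀ x y : ℕ → Bool,
        TuringEquivalent (fun k => Part.some (x k).toNat : ℕ →. ℕ)
          (fun k => Part.some (y k).toNat : ℕ →. ℕ) ↔ ∃ n, E n x y) →
      ∃ i : ℕ, ∀ F : ℕ → (ℕ → Bool) → (ℕ → Bool) → Prop,
        (∀ m, Equivalence (F m)) →
        (∀ m, MeasurableSet {p : (ℕ → Bool) × (ℕ → Bool) | F m p.1 p.2}) →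
        (∀ m x y, F m x y → F (m + 1) x y) →
        (∀ x y, E i x y ↔ ∃ m, F m x y) →
        ∃ t : List Bool → Bool, ∃ m : ℕ,
          t [] = true ∧
          (∀ l : List Bool, ∀ a : Bool, t (l ++ [a]) = true → t l = true) ∧
          (∀ l : List Bool, t l = true →
            ∃ l' : List Bool, t (l ++ l' ++ [false]) = true ∧ t (l ++ l' ++ [true]) = true) ∧
          (∀ x : ℕ → Bool, (∀ n, t (List.ofFn (fun j : Fin n => x j)) = true) →
            TuringReducible
              (fun k => Part.some (((Encodable.decode k : Option (List Bool)).elim false t).toNat)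
                : ℕ →. ℕ)
              (fun k => Part.some (x k).toNat : ℕ →. ℕ)) ∧
          (∀ x : ℕ → Bool, (∀ n, t (List.ofFn (fun j : Fin n => x j)) = true) →
            ∀ w : ℕ → Bool,
              TuringReducible (fun k => Part.some (w k).toNat : ℕ →. ℕ)
                (fun k => Part.some (x k).toNat : ℕ →. ℕ) →
              ∃ y : ℕ → Bool, F m x y ∧ ∀ k, y ≠ fun n => w (Nat.pair k n)) := by
  intro E _ _ h3 h4
  obtain ⟨i, hi⟩ := Ls.main_list (E := E) h3 h4
  refine ⟨i, fun F f1 f2 f3 f4 => ?_⟩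
  obtain ⟨t, m, ⟨a1, a2, a3, a4⟩, a5⟩ := hi F f1 f2 f3 f4
  refine ⟨t, m, a1, a2, a3, a4, fun x hx w hw => ?_⟩
  by_contra hc
  refine a5 x hx ⟨w, hw, fun y hy => ?_⟩
  by_contra hk
  exact hc ⟨y, hy, fun k e => hk ⟨k, e.symm⟩⟩

end Pool.Agent.Results.MP_18f39a_lc.LargeClasses
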