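import Pool.Agent.Lib.MP_18f39a_lc.Conv

set_option autoImplicit false

namespace Pool.Agent.Results.MP_18f39a_lc.TwoPerms

open Pool.Agent.Lib.MP_18f39a_lc in
/-- There are permutations `S`, `T` of `ℕ`, primitive recursive with their inverses, such that, for every increasing
Borel exhaustion `E` of Turing equivalence, the conclusion of Q1 holds for `E` if and only if some
Borel map `f`, degree preserving on a cone, has `f x`, `f (x ∘ S)` and `f (x ∘ T)` in one
`E N`-class for every `x` of the cone. -/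
theorem result :
    ∃ S T : ℕ ≃ ℕ, Primrec S ∧ Primrec S.symm ∧ Primrec T ∧ Primrec T.symm ∧
    ∀ E : ℕ → (ℕ → Bool) → (ℕ → Bool) → Prop,
      (∀ n, Equivalence (E n)) →
      (∀ n, MeasurableSet {p : (ℕ → Bool) × (ℕ → Bool) | E n p.1 p.2}) →
      (∀ n x y, E n x y → E (n + 1) x y) →
      (∀ x y : ℕ → Bool,
        TuringEquivalent (fun k => Part.some (x k).toNat : ℕ →. ℕ)
          (fun k => Part.some (y k).toNat : ℕ →. ℕ) ↔ ∃ n, E n x y) →
      ((∃ t : List Bool → Bool, ∃ i : ℕ,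
        t [] = true ∧
        (∀ l : List Bool, ∀ a : Bool, t (l ++ [a]) = true → t l = true) ∧
        (∀ l : List Bool, t l = true →
          ∃ m : List Bool, t (l ++ m ++ [false]) = true ∧ t (l ++ m ++ [true]) = true) ∧
        (∀ x : ℕ → Bool, (∀ n, t (List.ofFn (fun j : Fin n => x j)) = true) →
          TuringReducible
            (fun k => Part.some (((Encodable.decode k : Option (List Bool)).elim false t).toNat)
              : ℕ →. ℕ)
            (fun k => Part.some (x k).toNat : ℕ →. ℕ)) ∧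
        (∀ x y : ℕ → Bool,
          (∀ n, t (List.ofFn (fun j : Fin n => x j)) = true) →
          (∀ n, t (List.ofFn (fun j : Fin n => y j)) = true) →
          (E i x y ↔ TuringEquivalent (fun k => Part.some (x k).toNat : ℕ →. ℕ)
            (fun k => Part.some (y k).toNat : ℕ →. ℕ)))) ↔
      ∃ (f : (ℕ → Bool) → (ℕ → Bool)) (b : ℕ → Bool) (N : ℕ), Measurable f ∧
        ∀ x : ℕ → Bool,
          TuringReducible (fun k => Part.some (b k).toNat : ℕ →. ℕ)
            (fun k => Part.some (x k).toNat : ℕ →. ℕ) →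
          TuringEquivalent (fun k => Part.some (f x k).toNat : ℕ →. ℕ)
            (fun k => Part.some (x k).toNat : ℕ →. ℕ) ∧
          E N (f x) (f (x ∘ S)) ∧ E N (f x) (f (x ∘ T))) := by
  refine ⟨permS, permT, primrec_permS, primrec_permS_symm, primrec_permT, primrec_permT_symm,
    fun E h1 h2 h3 h4 => ⟨?_, ?_⟩⟩
  · rintro ⟨t, i, a1, a2, a3, a4, a5⟩
    obtain ⟨f, b, N, c1, c2, c3⟩ := converse (E := E) ⟨t, i, ⟨a1, a2, a3, a4⟩, a5⟩
    exact ⟨f, b, N, c1.measurable, fun x hx => ⟨c2 x hx, c3 _ primrec_permS.to_comp x hx,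
      c3 _ primrec_permT.to_comp x hx⟩⟩
  · rintro ⟨f, b, N, c1, c2⟩
    obtain ⟨t, i, ⟨a1, a2, a3, a4⟩, a5⟩ := main_perm (E := E) ⟨h1, h2, h3, h4⟩ c1
      (fun x hx => (c2 x hx).1) (fun x hx => (c2 x hx).2.1) (fun x hx => (c2 x hx).2.2)
    exact ⟨t, i, a1, a2, a3, a4, a5⟩

end Pool.Agent.Results.MP_18f39a_lc.TwoPerms
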